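import Pool.Agent.helper54.TS.Spec

set_option autoImplicit false

/-! Row `ts:SFB`: the Salem field. -/

open Polynomial Finset

noncomputable section

namespace Pool.Agent.TS

open Pool.Agent.PSA (IsSalem Indep Fac)

section
variable {K : Type} [Field K] [NumberField K] {k : ℕ} (ι σ : K →+* ℝ) (φ : Fin k → K →+* ℂ)
  (e : Bool ⊕ (Fin k × Bool) ≃ (K →+* ℂ))

theorem SFB_nrm (h1 : e (Sum.inl true) = Complex.ofRealHom.comp ι)
    (h2 : e (Sum.inl false) = Complex.ofRealHom.comp σ) (h3 : ∀ j, e (Sum.inr (j, true)) = φ j)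
    (h4 : ∀ j, e (Sum.inr (j, false)) = (starRingEnd ℂ).comp (φ j)) (x : K) (hx : IsIntegral ℤ x)
    (hx0 : x ≠ 0) : 1 ≤ |ι x| * |σ x| * ∏ j, ‖φ j x‖ ^ 2 := by
  classical
  have e1 : ‖∏ f : K →ₐ[ℚ] ℂ, f x‖ = |ι x| * |σ x| * ∏ j, ‖φ j x‖ ^ 2 := by
    rw [norm_prod]
    have g1 : ∏ f : K →ₐ[ℚ] ℂ, ‖f x‖ = ∏ ψ : K →+* ℂ, ‖ψ x‖ :=
      (Fintype.prod_equiv (RingHom.equivRatAlgHom K ℂ) (fun f => ‖f x‖)
        (fun ψ => ‖ψ x‖) fun _ => by simp [RingHom.equivRatAlgHom_apply]).symm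
    have g2 : ∏ ψ : K →+* ℂ, ‖ψ x‖ = ∏ i : Bool ⊕ (Fin k × Bool), ‖e i x‖ :=
      (Equiv.prod_comp e (fun ψ => ‖ψ x‖)).symm
    rw [g1, g2, Fintype.prod_sum_type, Fintype.prod_prod_type, Fintype.prod_bool, h1, h2]
    have g3 : ∀ j, ∏ b : Bool, ‖e (Sum.inr (j, b)) x‖ = ‖φ j x‖ ^ 2 := by
      intro j
      rw [Fintype.prod_bool, h3, h4, RingHom.comp_apply, RCLike.norm_conj, sq]
    rw [Finset.prod_congr rfl (fun j _ => g3 j), RingHom.comp_apply, RingHom.comp_apply]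
    have g4 : ‖Complex.ofRealHom (ι x)‖ = |ι x| := by
      rw [Complex.ofRealHom_eq_coe, Complex.norm_real, Real.norm_eq_abs]
    have g5 : ‖Complex.ofRealHom (σ x)‖ = |σ x| := by
      rw [Complex.ofRealHom_eq_coe, Complex.norm_real, Real.norm_eq_abs]
    rw [g4, g5]
  rw [← e1, ← Algebra.norm_eq_prod_embeddings ℚ ℂ x]
  have i1 : IsIntegral ℤ (Algebra.norm ℚ x) := Algebra.isIntegral_norm ℚ hx
  obtain ⟨n, hn⟩ := IsIntegrallyClosed.isIntegral_iff.1 i1
  have hn0 : n ≠ 0 := by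
    intro h
    rw [h, map_zero] at hn
    exact hx0 (Algebra.norm_eq_zero_iff.1 hn.symm)
  rw [← hn, eq_ratCast, eq_intCast, Rat.cast_intCast, Complex.norm_intCast]
  exact_mod_cast Int.one_le_abs hn0

theorem SFB_fin (h1 : e (Sum.inl true) = Complex.ofRealHom.comp ι)
    (h2 : e (Sum.inl false) = Complex.ofRealHom.comp σ) (h3 : ∀ j, e (Sum.inr (j, true)) = φ j)
    (h4 : ∀ j, e (Sum.inr (j, false)) = (starRingEnd ℂ).comp (φ j)) (B : ℝ) :
    {x : K | IsIntegral ℤ x ∧ |ι x| ≤ B ∧ |σ x| ≤ B ∧ ∀ j, ‖φ j x‖ ≤ B}.Finite := by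
  refine (NumberField.Embeddings.finite_of_norm_le K ℂ B).subset ?_
  rintro x ⟨hx, b1, b2, b3⟩
  refine ⟨hx, fun ψ => ?_⟩
  obtain ⟨i, rfl⟩ := e.surjective ψ
  rcases i with (_ | _) | ⟨j, (_ | _)⟩
  · rw [h2, RingHom.comp_apply, Complex.ofRealHom_eq_coe, Complex.norm_real, Real.norm_eq_abs]
    exact b2
  · rw [h1, RingHom.comp_apply, Complex.ofRealHom_eq_coe, Complex.norm_real, Real.norm_eq_abs]
    exact b1
  · rw [h4, RingHom.comp_apply, RCLike.norm_conj]
    exact b3 j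
  · rw [h3]
    exact b3 j

omit [NumberField K] in
theorem SFB_den_one [Algebra ℚ K] (hK : Algebra.IsAlgebraic ℚ K) (x : K) :
    ∃ N : ℕ, 0 < N ∧ IsIntegral ℤ ((N : K) * x) := by
  have hx : IsAlgebraic ℤ x := (IsFractionRing.isAlgebraic_iff ℤ ℚ K).2 (hK.isAlgebraic x)
  obtain ⟨y, hy, hxy⟩ := hx.exists_integral_multiple
  refine ⟨y.natAbs, Int.natAbs_pos.2 hy, ?_⟩
  rw [zsmul_eq_mul] at hxy
  rcases Int.natAbs_eq y with h | h
  · rw [h] at hxy
    push_cast at hxy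
    simpa using hxy
  · rw [h] at hxy
    have h2 := hxy.neg
    push_cast at h2
    simpa using h2

end

theorem SFB (hSFA : SFA_stmt) : SFB_stmt := by
  intro β hβ
  obtain ⟨k, σ, φ, w, e, hind, hinv, hsig, hval, he1, he2, he3, he4⟩ := hSFA β hβ
  have hβi : IsIntegral ℤ β := hβ.1
  have hfd : FiniteDimensional ℚ (IntermediateField.adjoin ℚ ({β} : Set ℝ)) :=
    IntermediateField.adjoin.finiteDimensional hβi.tower_top
  haveI : NumberField (IntermediateField.adjoin ℚ ({β} : Set ℝ)) :=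
    { to_charZero := inferInstance, to_finiteDimensional := hfd }
  have hg : inc β (gen β) = β := rfl
  have hinj : Function.Injective (algebraMap (IntermediateField.adjoin ℚ ({β} : Set ℝ)) ℝ) :=
    (algebraMap (IntermediateField.adjoin ℚ ({β} : Set ℝ)) ℝ).injective
  refine ⟨k, σ, φ, w, ?_⟩
  refine ⟨?_, ?_, ?_, ?_, hval, hind, ?_, ?_, ?_⟩
  · rw [hg]; exact hβ.2.1
  · exact (isIntegral_algebraMap_iff (R := ℤ) hinj).1 (show IsIntegral ℤ (inc β (gen β)) by
      rw [hg]; exact hβi)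
  · refine (isIntegral_algebraMap_iff (R := ℤ) hinj).1 ?_
    have : algebraMap (IntermediateField.adjoin ℚ ({β} : Set ℝ)) ℝ (gen β)⁻¹ = β⁻¹ := by
      rw [map_inv₀]; rfl
    rw [this]
    exact hinv
  · rw [hg]; exact hsig
  · intro x hx hx0
    exact SFB_nrm (inc β) σ φ e he1 he2 he3 he4 x hx hx0
  · intro B
    exact SFB_fin (inc β) σ φ e he1 he2 he3 he4 B
  · intro S
    classical
    have halg : Algebra.IsAlgebraic ℚ (IntermediateField.adjoin ℚ ({β} : Set ℝ)) := inferInstance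
    induction S using Finset.induction_on with
    | empty => exact ⟨1, one_pos, fun x hx => absurd hx (Finset.notMem_empty x)⟩
    | insert a s ha ih =>
      obtain ⟨N, hN, h1⟩ := ih
      obtain ⟨M, hM, h2⟩ := SFB_den_one halg a
      refine ⟨N * M, Nat.mul_pos hN hM, ?_⟩
      intro x hx
      have hNi : IsIntegral ℤ ((N : ℕ) : IntermediateField.adjoin ℚ ({β} : Set ℝ)) := by
        have := isIntegral_algebraMap (R := ℤ) (A := IntermediateField.adjoin ℚ ({β} : Set ℝ))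
          (x := (N : ℤ))
        simpa using this
      have hMi : IsIntegral ℤ ((M : ℕ) : IntermediateField.adjoin ℚ ({β} : Set ℝ)) := by
        have := isIntegral_algebraMap (R := ℤ) (A := IntermediateField.adjoin ℚ ({β} : Set ℝ))
          (x := (M : ℤ))
        simpa using this
      rcases Finset.mem_insert.1 hx with rfl | hx
      · have : ((N * M : ℕ) : IntermediateField.adjoin ℚ ({β} : Set ℝ)) * x = N * (M * x) := by
          push_cast; ring
        rw [this]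
        exact hNi.mul h2
      · have : ((N * M : ℕ) : IntermediateField.adjoin ℚ ({β} : Set ℝ)) * x = M * (N * x) := by
          push_cast; ring
        rw [this]
        exact hMi.mul (h1 x hx)

end Pool.Agent.TS
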